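import Pool.Agent.E8helper43.ER.Stm

set_option autoImplicit false

/-!
# Ramsey's theorem for `k`-subsets
-/

namespace Pool.Agent.E8helper93.ER

open Finset
open Pool.Agent.E8helper43.ER

/-- Ramsey's theorem for subsets of `ℕ` -/
def P (k : ℕ) : Prop := ∀ m r : ℕ, ∃ N : ℕ, ∀ X : Finset ℕ, N ≤ X.card → ∀ c : Finset ℕ → Fin r,
  ∃ M ⊆ X, M.card = m ∧ ∀ K K' : Finset ℕ, K ⊆ M → K' ⊆ M → K.card = k → K'.card = k → c K = c K'

theorem p_zero : P 0 := by
  intro m r
  refine ⟨m, fun X hX c => ?_⟩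
  obtain ⟨M, hM, hc⟩ := exists_subset_card_eq hX
  refine ⟨M, hM, hc, fun K K' _ _ hK hK' => ?_⟩
  rw [card_eq_zero.1 hK, card_eq_zero.1 hK']

theorem endhom (k : ℕ) (h : P k) (r t : ℕ) : ∃ N : ℕ, ∀ X : Finset ℕ, N ≤ X.card →
    ∀ c : Finset ℕ → Fin r, ∃ Z ⊆ X, Z.card = t ∧ ∃ d : ℕ → Fin r, ∀ K ⊆ Z, K.card = k + 1 →
      ∀ x ∈ K, (∀ y ∈ K, x ≤ y) → c K = d x := by
  classical
  induction t with
  | zero =>
    refine ⟨0, fun X _ c => ⟨∅, empty_subset _, card_empty, fun _ => c ∅, fun K hK hc => ?_⟩⟩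
    rw [subset_empty.1 hK, card_empty] at hc
    omega
  | succ t ih =>
    obtain ⟨N1, hN1⟩ := ih
    obtain ⟨N2, hN2⟩ := h N1 r
    refine ⟨N2 + 1, fun X hX c => ?_⟩
    have hne : X.Nonempty := card_pos.1 (by omega)
    set x := X.min' hne with hx
    have hxX : x ∈ X := min'_mem _ _
    have hc1 : N2 ≤ (X.erase x).card := by
      rw [card_erase_of_mem hxX]
      omega
    obtain ⟨X2, hX2, hcard, hcol⟩ := hN2 (X.erase x) hc1 (fun S => c (insert x S))
    obtain ⟨Z, hZ, hZc, d, hd⟩ := hN1 X2 hcard.ge c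
    have hxZ : x ∉ Z := fun hh => (mem_erase.1 (hX2 (hZ hh))).1 rfl
    refine ⟨insert x Z, ?_, ?_, fun y => if y = x then
      (if hh : ∃ K0 ⊆ X2, K0.card = k then c (insert x hh.choose) else c ∅) else d y, ?_⟩
    · intro y hy
      rcases mem_insert.1 hy with rfl | hy
      · exact hxX
      · exact mem_of_mem_erase (hX2 (hZ hy))
    · rw [card_insert_of_notMem hxZ, hZc]
    · intro K hK hKc y hy hmin
      beta_reduce
      by_cases hxK : x ∈ K
      · have hyx : y = x := by
          apply le_antisymm (hmin x hxK)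
          rcases mem_insert.1 (hK hy) with e | e
          · exact e.ge
          · exact min'_le _ _ (mem_of_mem_erase (hX2 (hZ e)))
        have hsub : K.erase x ⊆ X2 := by
          intro z hz
          obtain ⟨z1, z2⟩ := mem_erase.1 hz
          rcases mem_insert.1 (hK z2) with e | e
          · exact absurd e z1
          · exact hZ e
        have hck : (K.erase x).card = k := by
          rw [card_erase_of_mem hxK, hKc]
          omega
        have hh : ∃ K0 ⊆ X2, K0.card = k := ⟨K.erase x, hsub, hck⟩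
        rw [if_pos hyx, dif_pos hh]
        have e1 := hcol (K.erase x) hh.choose hsub hh.choose_spec.1 hck hh.choose_spec.2
        have e2 : insert x (K.erase x) = K := insert_erase hxK
        have e3 : c (insert x (K.erase x)) = c (insert x hh.choose) := e1
        rw [e2] at e3
        exact e3
      · have hyx : y ≠ x := fun e => hxK (e ▸ hy)
        rw [if_neg hyx]
        refine hd K (fun z hz => ?_) hKc y hy hmin
        rcases mem_insert.1 (hK hz) with e | e
        · exact absurd (e ▸ hz) hxK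
        · exact e

theorem p_succ (k : ℕ) (h : P k) : P (k + 1) := by
  classical
  intro m r
  obtain ⟨N, hN⟩ := endhom k h r (r * m)
  refine ⟨N, fun X hX c => ?_⟩
  obtain ⟨Z, hZ, hZc, d, hd⟩ := hN X hX c
  obtain ⟨y, -, hy⟩ := exists_le_card_fiber_of_mul_le_card_of_maps_to (s := Z)
    (t := (univ : Finset (Fin r))) (f := d) (n := m) (fun a _ => mem_univ _) ⟨c ∅, mem_univ _⟩
    (by rw [card_univ, Fintype.card_fin, hZc])
  obtain ⟨M, hM, hMc⟩ := exists_subset_card_eq hy
  have key : ∀ K : Finset ℕ, K ⊆ M → K.card = k + 1 → c K = y := by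
    intro K hK hKc
    have hne : K.Nonempty := card_pos.1 (by omega)
    have h1 := hd K (fun z hz => (mem_filter.1 (hM (hK hz))).1) hKc (K.min' hne) (min'_mem _ _)
      (fun z hz => min'_le _ _ hz)
    rw [h1]
    exact (mem_filter.1 (hM (hK (min'_mem K hne)))).2
  refine ⟨M, fun z hz => hZ (mem_filter.1 (hM hz)).1, hMc, fun K K' hK hK' h1 h2 => ?_⟩
  rw [key K hK h1, key K' hK' h2]

theorem p_all (k : ℕ) : P k := by
  induction k with
  | zero => exact p_zero
  | succ k ih => exact p_succ k ih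

theorem t_RAM : S_RAM := by
  classical
  intro k m r
  obtain ⟨N, hN⟩ := p_all k m r
  refine ⟨N, fun c => ?_⟩
  obtain ⟨M, hM, hMc, hcol⟩ := hN (range N) (card_range N).ge
    (fun S => c (univ.filter fun i : Fin N => (i : ℕ) ∈ S))
  have e : (univ.filter fun i : Fin N => (i : ℕ) ∈ M).map Fin.valEmbedding = M := by
    ext z
    simp only [mem_map, mem_filter, mem_univ, true_and, Fin.valEmbedding_apply]
    constructor
    · rintro ⟨i, hi, rfl⟩
      exact hi
    · intro hz
      exact ⟨⟨z, mem_range.1 (hM hz)⟩, hz, rfl⟩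
  have e2 : ∀ K : Finset (Fin N), (univ.filter fun i : Fin N => (i : ℕ) ∈ K.map Fin.valEmbedding) = K := by
    intro K
    ext z
    simp only [mem_map, mem_filter, mem_univ, true_and, Fin.valEmbedding_apply]
    constructor
    · rintro ⟨i, hi, h⟩
      rwa [← Fin.ext h]
    · intro hz
      exact ⟨z, hz, rfl⟩
  refine ⟨univ.filter fun i : Fin N => (i : ℕ) ∈ M, ?_, fun K K' hK hK' h1 h2 => ?_⟩
  · rw [← card_map Fin.valEmbedding, e, hMc]
  · have h3 := hcol (K.map Fin.valEmbedding) (K'.map Fin.valEmbedding)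
      (by rw [← e]; exact map_subset_map.2 hK) (by rw [← e]; exact map_subset_map.2 hK')
      (by rw [card_map, h1]) (by rw [card_map, h2])
    have h4 : c (univ.filter fun i : Fin N => (i : ℕ) ∈ K.map Fin.valEmbedding) =
      c (univ.filter fun i : Fin N => (i : ℕ) ∈ K'.map Fin.valEmbedding) := h3
    rwa [e2, e2] at h4

end Pool.Agent.E8helper93.ER
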